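import Pool.Agent.Lib.MP_defcf3_al.FR.MLocal
import Pool.Agent.Lib.MP_defcf3_al.FR.H28.Rc
import Pool.Agent.Lib.MP_defcf3_al.FR.H38.Fi
import Pool.Agent.Lib.MP_defcf3_al.FR.H67.Kt
import Pool.Agent.Lib.MP_defcf3_al.FR.H72.Ex
import Pool.Agent.Lib.MP_defcf3_al.FR.PU

/-! The Brumer-Rosen alternative for all odd primes p and fields F of characteristic different from p, without bound on
the degree d of F(ζ) over F, ζ a primitive p-th root of unity, under finiteness conditions. In particular: if Br(F)[p]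
and Br(F(ζ))[p] are finite (for even d it is enough that Br(F)[p] and Br(F(ζ + 1/ζ))[p] are finite) and p is the degree
of some central division F-algebra, then Br(F) contains a quasicyclic p-group. -/

open scoped TensorProduct

namespace Pool.Agent.Results.MP_defcf3_al.BrumerRosenFinite

open Pool.Agent.Lib.MP_defcf3_al

universe u

/-- Let p be an odd prime, F a field of characteristic different from p with Br(F)[p] finite (`FR.FinBr p F`) and
L = F(ζ) with ζ a primitive p-th root of unity, d = [L:F]. Suppose that any two elements of L lie in a subfield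
L₀ = F₀(ζ) of L, with F₀ a subfield of F and [L₀:F₀] = d, such that for each i = 2, ..., d-1 there is k = i or
k = d+1-i for which the eigenspace of weight k of Gal(L₀/F₀) in L₀^*/L₀^{*p} is finite or Br(M)[p] is finite for some
field M between F₀ and L₀ with [L₀:M] dividing k (`FR.LocM`, `FR.FinN`; M = L₀ always qualifies). Let A be a
central simple F-algebra of dimension p^(2m) which is not split and whose base change to L is Brauer equivalent to a
tensor product of central simple L-algebras of degree p. Then there are central simple F-algebras A 0, A 1, ... such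
that A 0 is not split, the p-th tensor power of A 0 is split, and the p-th tensor power of A (n+1) is Brauer
equivalent to A n: the Brauer group of F contains a quasicyclic p-group. -/
theorem result : ∀ p : ℕ, p.Prime → Odd p → ∀ (F L : Type u) [Field F] [Field L] [Algebra F L], (p : F) ≠ 0 →
    IsCyclotomicExtension {p} F L → FR.FinBr p F → FR.LocM p F L →
    ∀ (A : Type u) [Ring A] [Algebra F A] [Algebra.IsCentral F A] [IsSimpleRing A] (m : ℕ),
    Module.finrank F A = (p ^ 2) ^ m → (∀ n : ℕ, IsEmpty (A ≃ₐ[F] Matrix (Fin n) (Fin n) F)) →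
    ∀ (k : ℕ) (B : Fin k → Type u) [∀ i, Ring (B i)] [∀ i, Algebra L (B i)],
    (∀ i, Algebra.IsCentral L (B i) ∧ IsSimpleRing (B i) ∧ Module.finrank L (B i) = p ^ 2) →
    (∃ r s : ℕ, r ≠ 0 ∧ s ≠ 0 ∧
      Nonempty (Matrix (Fin r) (Fin r) (L ⊗[F] A) ≃ₐ[L] Matrix (Fin s) (Fin s) (⨂[L] i, B i))) →
    ∃ (A : ℕ → Type u) (_ : ∀ n, Ring (A n)) (_ : ∀ n, Algebra F (A n)),
      (∀ n, Algebra.IsCentral F (A n) ∧ IsSimpleRing (A n) ∧ FiniteDimensional F (A n)) ∧
      (∀ m : ℕ, IsEmpty (A 0 ≃ₐ[F] Matrix (Fin m) (Fin m) F)) ∧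
      (∃ m : ℕ, Nonempty ((⨂[F] (_ : Fin p), A 0) ≃ₐ[F] Matrix (Fin m) (Fin m) F)) ∧
      ∀ n, ∃ r s : ℕ, r ≠ 0 ∧ s ≠ 0 ∧
        Nonempty (Matrix (Fin r) (Fin r) (⨂[F] (_ : Fin p), A (n + 1)) ≃ₐ[F] Matrix (Fin s) (Fin s) (A n)) :=
  fun p hp hodd F L _ _ _ h7 hL hF hloc A _ _ _ _ m hA hns k B _ _ hB he =>
    FR.brumerRosenLocM FR.H28.rc FR.pu (fun _ _ _ => FR.H67.kt) (fun ℓ _ _ => FR.H72.stEX ℓ)
      (fun ℓ _ => FR.H38.fi ℓ) p hp hodd F L h7 hL hF hloc A m hA hns k B hB he

end Pool.Agent.Results.MP_defcf3_al.BrumerRosenFinite
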