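import Pool.Agent.Lib.MP_defcf3_al.CL.AllC

/-! The Brumer-Rosen alternative for every field of positive characteristic and every odd prime p different from the
characteristic, without any bound on the degree of F(ζ) over F, where ζ is a primitive p-th root of unity. -/

open scoped TensorProduct

namespace Pool.Agent.Results.MP_defcf3_al.BrumerRosenPosChar

universe u

/-- Let p be an odd prime, F a field of characteristic c > 0 different from p, L = F(ζ) with ζ a primitive p-th root
of unity, and A a central simple F-algebra of degree p^m which is not split and whose base change to L is Brauer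
equivalent to a tensor product of central simple L-algebras of degree p (for instance any division algebra A of
degree p, or, by the theorem of Merkurjev and Suslin, any A of exponent p). Then there are central simple F-algebras
A 0, A 1, ... such that A 0 is not split, the p-th tensor power of A 0 is split, and the p-th tensor power of A (n+1)
is Brauer equivalent to A n: the Brauer group of F contains a quasicyclic p-group. -/
theorem result : ∀ p : ℕ, p.Prime → Odd p → ∀ c : ℕ, c.Prime → ∀ (F L : Type u) [Field F] [Field L] [Algebra F L]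
    [CharP F c], (p : F) ≠ 0 → IsCyclotomicExtension {p} F L →
    ∀ (A : Type u) [Ring A] [Algebra F A] [Algebra.IsCentral F A] [IsSimpleRing A] (m : ℕ),
    Module.finrank F A = (p ^ 2) ^ m → (∀ n : ℕ, IsEmpty (A ≃ₐ[F] Matrix (Fin n) (Fin n) F)) →
    ∀ (k : ℕ) (B : Fin k → Type u) [∀ i, Ring (B i)] [∀ i, Algebra L (B i)],
    (∀ i, Algebra.IsCentral L (B i) ∧ IsSimpleRing (B i) ∧ Module.finrank L (B i) = p ^ 2) →
    (∃ r s : ℕ, r ≠ 0 ∧ s ≠ 0 ∧
      Nonempty (Matrix (Fin r) (Fin r) (L ⊗[F] A) ≃ₐ[L] Matrix (Fin s) (Fin s) (⨂[L] i, B i))) →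
    ∃ (A : ℕ → Type u) (_ : ∀ n, Ring (A n)) (_ : ∀ n, Algebra F (A n)),
      (∀ n, Algebra.IsCentral F (A n) ∧ IsSimpleRing (A n) ∧ FiniteDimensional F (A n)) ∧
      (∀ m : ℕ, IsEmpty (A 0 ≃ₐ[F] Matrix (Fin m) (Fin m) F)) ∧
      (∃ m : ℕ, Nonempty ((⨂[F] (_ : Fin p), A 0) ≃ₐ[F] Matrix (Fin m) (Fin m) F)) ∧
      ∀ n, ∃ r s : ℕ, r ≠ 0 ∧ s ≠ 0 ∧
        Nonempty (Matrix (Fin r) (Fin r) (⨂[F] (_ : Fin p), A (n + 1)) ≃ₐ[F] Matrix (Fin s) (Fin s) (A n)) :=
  fun p hp hodd c hc F L _ _ _ _ h7 hL A _ _ _ _ m hA hns k B _ _ hB he =>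
    CL.finalHPos CL.allC_heart p hp hodd c hc F L h7 hL A m hA hns k B hB he

end Pool.Agent.Results.MP_defcf3_al.BrumerRosenPosChar
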