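import Pool.Agent.Lib.MP_defcf3_al.CL.AllC

/-! Descent from F(ζ) to F for fields of positive characteristic: products of algebras of degree p over F(ζ) come from
products of cyclic algebras over F, for every odd prime p different from the characteristic, without any bound on the
degree of F(ζ) over F, where ζ is a primitive p-th root of unity. -/

open scoped TensorProduct

namespace Pool.Agent.Results.MP_defcf3_al.CyclicGenerationPosChar

universe u

/-- Let p be an odd prime, F a field of characteristic c > 0 different from p, L = F(ζ) with ζ a primitive p-th root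
of unity, and A a central simple F-algebra of degree p^m. If the base change of A to L is Brauer equivalent to a
tensor product of central simple L-algebras of degree p (for instance if A has degree p, or, by the theorem of
Merkurjev and Suslin, if A has exponent p), then A is Brauer equivalent to a tensor product of cyclic division
F-algebras of degree p. -/
theorem result : ∀ p : ℕ, p.Prime → Odd p → ∀ c : ℕ, c.Prime → ∀ (F L : Type u) [Field F] [Field L] [Algebra F L]
    [CharP F c], (p : F) ≠ 0 → IsCyclotomicExtension {p} F L →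
    ∀ (A : Type u) [Ring A] [Algebra F A] [Algebra.IsCentral F A] [IsSimpleRing A] (m : ℕ),
    Module.finrank F A = (p ^ 2) ^ m →
    ∀ (k : ℕ) (B : Fin k → Type u) [∀ i, Ring (B i)] [∀ i, Algebra L (B i)],
    (∀ i, Algebra.IsCentral L (B i) ∧ IsSimpleRing (B i) ∧ Module.finrank L (B i) = p ^ 2) →
    (∃ r s : ℕ, r ≠ 0 ∧ s ≠ 0 ∧
      Nonempty (Matrix (Fin r) (Fin r) (L ⊗[F] A) ≃ₐ[L] Matrix (Fin s) (Fin s) (⨂[L] i, B i))) →
    ∃ (l : ℕ) (C : Fin l → Type u) (_ : ∀ i, Ring (C i)) (_ : ∀ i, Algebra F (C i)),
      (∀ i, Algebra.IsCentral F (C i) ∧ Module.finrank F (C i) = p ^ 2 ∧ (∀ b : C i, b ≠ 0 → IsUnit b) ∧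
        ∃ (K : Type u) (_ : Field K) (_ : Algebra F K), IsGalois F K ∧ Module.finrank F K = p ∧
          Nonempty (K →ₐ[F] C i)) ∧
      ∃ r s : ℕ, r ≠ 0 ∧ s ≠ 0 ∧
        Nonempty (Matrix (Fin r) (Fin r) A ≃ₐ[F] Matrix (Fin s) (Fin s) (⨂[F] i, C i)) :=
  fun p hp hodd c hc F L _ _ _ _ h7 hL A _ _ _ _ m hA k B _ _ hB he =>
    CL.finalGPos CL.allC_heart p hp hodd c hc F L h7 hL A m hA k B hB he

end Pool.Agent.Results.MP_defcf3_al.CyclicGenerationPosChar
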